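import Pool.Agent.H92.EQ.TP
import Pool.Agent.H72.EQ.KL
import Pool.Agent.H88.EQ.G2

/-!
Row PRJ of the board `eqd_modules`: the relative Jacobian on paths without visits.
-/

namespace Pool.Agent.H68.EQ

open Pool.Agent.H92.EQ
open scoped BigOperators ComplexConjugate
open MeasureTheory

theorem nrm_smul' {N : ℕ} (l : ℂ) (z : Fin N → ℂ) : nrm (l • z) = ‖l‖ * nrm z := by
  unfold nrm nsq
  have h1 : ∑ i, ‖(l • z) i‖ ^ 2 = ‖l‖ ^ 2 * ∑ i, ‖z i‖ ^ 2 := by
    rw [Finset.mul_sum]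
    refine Finset.sum_congr rfl fun i _ => ?_
    rw [Pi.smul_apply, smul_eq_mul, norm_mul, mul_pow]
  rw [h1, Real.sqrt_mul (by positivity), Real.sqrt_sq (norm_nonneg l)]

theorem eval_bind {N : ℕ} (x : Fin N → ℂ) (g : Fin N → MvPolynomial (Fin N) ℂ)
    (p : MvPolynomial (Fin N) ℂ) :
    MvPolynomial.eval x (MvPolynomial.bind₁ g p) = MvPolynomial.eval (ev g x) p :=
  MvPolynomial.eval₂Hom_bind₁ _ _ _ _

theorem ev_iter_succ {N : ℕ} (F : Fin N → MvPolynomial (Fin N) ℂ) (n : ℕ) (x : Fin N → ℂ) :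
    ev (iter F (n + 1)) x = ev F (ev (iter F n) x) := by
  funext i
  exact eval_bind x (iter F n) (F i)

theorem ev_iter_ne {N d : ℕ} {F : Fin N → MvPolynomial (Fin N) ℂ} (hF : IsH d F)
    {x : Fin N → ℂ} (hx : x ≠ 0) (n : ℕ) : ev (iter F n) x ≠ 0 := by
  induction n with
  | zero =>
    have h1 : ev (iter F 0) x = x := by
      funext i
      exact MvPolynomial.eval_X i
    rw [h1]
    exact hx
  | succ n ih =>
    rw [ev_iter_succ]
    exact fun h => ih (hF.nd _ h)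

theorem eval_detP {N : ℕ} (F : Fin N → MvPolynomial (Fin N) ℂ) (x : Fin N → ℂ) :
    MvPolynomial.eval x (detP F) = (jac F x).det := by
  unfold detP
  rw [RingHom.map_det]
  rfl

theorem nrm_lower {N d : ℕ} {F : Fin N → MvPolynomial (Fin N) ℂ} (hd : 1 ≤ d) (hF : IsH d F) :
    ∃ c : ℝ, 0 < c ∧ ∀ z : Fin N → ℂ, nrm z = 1 → c ≤ nrm (ev F z) := by
  obtain ⟨c, hc, h⟩ := Pool.Agent.H88.EQ.exists_lower hd hF
  refine ⟨c * (1 / (N + 1)) ^ d, by positivity, fun z hz => ?_⟩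
  have h1 : (1 : ℝ) / (N + 1) ≤ ‖z‖ := by
    rw [div_le_iff₀ (by positivity)]
    have h2 := Pool.Agent.H72.EQ.nrm_le_sum z
    rw [hz] at h2
    have h3 : ∑ i, ‖z i‖ ≤ ∑ _i : Fin N, ‖z‖ := Finset.sum_le_sum fun i _ => norm_le_pi_norm z i
    rw [Finset.sum_const, Finset.card_univ, Fintype.card_fin, nsmul_eq_mul] at h3
    nlinarith [norm_nonneg z]
  have h4 : ‖ev F z‖ ≤ nrm (ev F z) :=
    (pi_norm_le_iff_of_nonneg (Pool.Agent.H72.EQ.nrm_nn _)).2 fun i =>
      Pool.Agent.H72.EQ.le_nrm _ i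
  calc c * (1 / (N + 1)) ^ d ≤ c * ‖z‖ ^ d :=
        mul_le_mul_of_nonneg_left (pow_le_pow_left₀ (by positivity) h1 d) hc.le
    _ ≤ ‖ev F z‖ := h z
    _ ≤ nrm (ev F z) := h4

theorem eval_bound {N : ℕ} (R : MvPolynomial (Fin N) ℂ) :
    ∃ B : ℝ, 0 < B ∧ ∀ z : Fin N → ℂ, nrm z = 1 → ‖MvPolynomial.eval z R‖ ≤ B := by
  refine ⟨(∑ m ∈ R.support, ‖R.coeff m‖) + 1, by positivity, fun z hz => ?_⟩
  rw [MvPolynomial.eval_eq']
  refine (norm_sum_le _ _).trans (le_trans (Finset.sum_le_sum fun m _ => ?_)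
    (le_add_of_nonneg_right zero_le_one))
  rw [norm_mul, norm_prod]
  refine mul_le_of_le_one_right (norm_nonneg _) ?_
  refine Finset.prod_le_one (fun i _ => norm_nonneg _) fun i _ => ?_
  rw [norm_pow]
  refine pow_le_one₀ (norm_nonneg _) ?_
  rw [← hz]
  exact Pool.Agent.H72.EQ.le_nrm z i

theorem pf_PRJ (hKL : T_KL) (hD11 : T_D11) : T_PRJ := by
  intro N d M F P hN hd hF hP
  obtain ⟨cK, hcK0, hcK1, hcK⟩ := hKL N d F hN hd hF
  obtain ⟨R, hR⟩ := hP.dvd
  obtain ⟨c1, hc1, hlow⟩ := nrm_lower (by omega : 1 ≤ d) hF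
  obtain ⟨B, hB, hRB⟩ := eval_bound R
  have hD := hD11 N d d F F (by omega) (by omega) hF hF
  have hsph : ∀ x : Fin N → ℂ, nrm x = 1 →
      c1 ^ M / B * nv P M (ev F x) ≤ nv (detP F) (N * (d - 1)) x := by
    intro x hx
    unfold nv
    rw [hx, one_pow, div_one, ← eval_bind, hR, map_mul, norm_mul]
    have h1 := hlow x hx
    have h2 : 0 < nrm (ev F x) := hc1.trans_le h1
    have h3 : c1 ^ M ≤ nrm (ev F x) ^ M := pow_le_pow_left₀ hc1.le h1 M
    have h4 : ‖MvPolynomial.eval x R‖ ≤ B := hRB x hx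
    rw [div_mul_div_comm, div_le_iff₀ (by positivity)]
    have h5 : 0 ≤ ‖MvPolynomial.eval x (detP F)‖ := norm_nonneg _
    calc c1 ^ M * (‖MvPolynomial.eval x (detP F)‖ * ‖MvPolynomial.eval x R‖)
        ≤ nrm (ev F x) ^ M * (‖MvPolynomial.eval x (detP F)‖ * B) :=
          mul_le_mul h3 (mul_le_mul_of_nonneg_left h4 h5) (by positivity) (by positivity)
      _ = ‖MvPolynomial.eval x (detP F)‖ * (B * nrm (ev F x) ^ M) := by ring
  have hall : ∀ x : Fin N → ℂ, x ≠ 0 →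
      c1 ^ M / B * nv P M (ev F x) ≤ nv (detP F) (N * (d - 1)) x := by
    intro x hx
    have hx0 : 0 < nrm x := Pool.Agent.H72.EQ.nrm_ps x hx
    set l : ℂ := (((nrm x)⁻¹ : ℝ) : ℂ) with hl
    have hl0 : l ≠ 0 := by
      rw [hl]
      exact_mod_cast (inv_pos.2 hx0).ne'
    have hl1 : 0 < ‖l‖ := norm_pos_iff.2 hl0
    have hln : ‖l‖ = (nrm x)⁻¹ := by
      rw [hl, Complex.norm_real, Real.norm_of_nonneg (inv_pos.2 hx0).le]
    have h1 : nrm (l • x) = 1 := by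
      rw [nrm_smul', hln, inv_mul_cancel₀ hx0.ne']
    have h2 := hsph (l • x) h1
    have h3 : nv P M (ev F (l • x)) = nv P M (ev F x) := by
      unfold nv
      rw [hD.2.1, Pool.Agent.H88.EQ.eval_smul_hom hP.hom, nrm_smul', norm_mul, norm_pow, norm_pow,
        mul_pow]
      rw [mul_div_mul_left]
      positivity
    have h4 : nv (detP F) (N * (d - 1)) (l • x) = nv (detP F) (N * (d - 1)) x := by
      unfold nv
      rw [eval_detP, eval_detP, hD.2.2.1, Matrix.det_smul, nrm_smul', norm_mul, norm_pow,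
        norm_pow, mul_pow, Fintype.card_fin, ← pow_mul, Nat.mul_comm (d - 1) N, mul_div_mul_left]
      positivity
    rw [h3, h4] at h2
    exact h2
  set c2 := min 1 (c1 ^ M / B) with hc2
  have hc20 : 0 < c2 := lt_min one_pos (by positivity)
  have hc21 : c2 ≤ 1 := min_le_left _ _
  have hnv : ∀ z : Fin N → ℂ, 0 ≤ nv P M z := fun z =>
    div_nonneg (norm_nonneg _) (pow_nonneg (Pool.Agent.H72.EQ.nrm_nn z) M)
  have hall2 : ∀ x : Fin N → ℂ, x ≠ 0 →
      c2 * nv P M (ev F x) ≤ nv (detP F) (N * (d - 1)) x := fun x hx =>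
    (mul_le_mul_of_nonneg_right (min_le_right _ _) (hnv _)).trans (hall x hx)
  refine ⟨cK * c2, mul_pos hcK0 hc20, mul_le_one₀ hcK1 hc20.le hc21, fun x hx => ?_, ?_⟩
  · refine le_trans ?_ (hall2 x hx)
    exact mul_le_mul_of_nonneg_right (mul_le_of_le_one_left hc20.le hcK1) (hnv _)
  · intro j r x hx hr0 hr1 hi
    refine le_trans ?_ (hcK j x hx)
    have h1 : (c2 * r) ^ j ≤ ∏ m ∈ Finset.range j, nv (detP F) (N * (d - 1)) (ev (iter F m) x) := by
      rw [← Finset.card_range j, ← Finset.prod_const, Finset.card_range]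
      refine Finset.prod_le_prod (fun m _ => by positivity) fun m hm => ?_
      have h2 := hall2 (ev (iter F m) x) (ev_iter_ne hF hx m)
      rw [← ev_iter_succ] at h2
      refine le_trans ?_ h2
      exact mul_le_mul_of_nonneg_left (hi (m + 1) (by omega) (by
        have := Finset.mem_range.1 hm
        omega)) hc20.le
    calc (cK * c2 * r) ^ j = cK ^ j * (c2 * r) ^ j := by rw [mul_assoc, mul_pow]
      _ ≤ _ := mul_le_mul_of_nonneg_left h1 (pow_nonneg hcK0.le j)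

end Pool.Agent.H68.EQ
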