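import Pool.Agent.H92.EQ.TF2

set_option autoImplicit false

namespace Pool.Agent.H68.EQ

open Pool.Agent.H92.EQ
open scoped BigOperators ComplexConjugate ContDiff ComplexOrder
open MeasureTheory

theorem pf_D2 : T_D2 := by
  intro ι κ _ _ _ _ p G S z hS c
  have h := hS (fun I' => ∑ I : Fin p → κ, c I * ∏ l, jac G z (I' l) (I l))
  refine h.trans (le_of_eq ?_)
  unfold pull
  have e1 : ∀ I' J' : Fin p → ι,
      (∑ I : Fin p → κ, c I * ∏ l, jac G z (I' l) (I l)) *
        conj (∑ I : Fin p → κ, c I * ∏ l, jac G z (J' l) (I l)) * S (ev G z) I' J' =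
      ∑ I : Fin p → κ, ∑ J : Fin p → κ, c I * conj (c J) *
        (S (ev G z) I' J' * (∏ l, jac G z (I' l) (I l)) * ∏ l, conj (jac G z (J' l) (J l))) := by
    intro I' J'
    rw [map_sum, Finset.sum_mul_sum, Finset.sum_mul]
    refine Finset.sum_congr rfl fun I _ => ?_
    rw [Finset.sum_mul]
    refine Finset.sum_congr rfl fun J _ => ?_
    rw [map_mul, map_prod]
    ring
  simp_rw [e1]
  have e2 : ∀ I J : Fin p → κ, c I * conj (c J) * (∑ I' : Fin p → ι, ∑ J' : Fin p → ι,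
        S (ev G z) I' J' * (∏ l, jac G z (I' l) (I l)) * ∏ l, conj (jac G z (J' l) (J l))) =
      ∑ I' : Fin p → ι, ∑ J' : Fin p → ι, c I * conj (c J) *
        (S (ev G z) I' J' * (∏ l, jac G z (I' l) (I l)) * ∏ l, conj (jac G z (J' l) (J l))) := by
    intro I J
    rw [Finset.mul_sum]
    refine Finset.sum_congr rfl fun I' _ => ?_
    rw [Finset.mul_sum]
  simp_rw [e2]
  -- reorder the four sums
  calc ∑ I' : Fin p → ι, ∑ J' : Fin p → ι, ∑ I : Fin p → κ, ∑ J : Fin p → κ, c I * conj (c J) *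
        (S (ev G z) I' J' * (∏ l, jac G z (I' l) (I l)) * ∏ l, conj (jac G z (J' l) (J l)))
      = ∑ I' : Fin p → ι, ∑ I : Fin p → κ, ∑ J' : Fin p → ι, ∑ J : Fin p → κ, c I * conj (c J) *
        (S (ev G z) I' J' * (∏ l, jac G z (I' l) (I l)) * ∏ l, conj (jac G z (J' l) (J l))) :=
        Finset.sum_congr rfl fun I' _ => Finset.sum_comm
    _ = ∑ I : Fin p → κ, ∑ I' : Fin p → ι, ∑ J' : Fin p → ι, ∑ J : Fin p → κ, c I * conj (c J) *
        (S (ev G z) I' J' * (∏ l, jac G z (I' l) (I l)) * ∏ l, conj (jac G z (J' l) (J l))) :=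
        Finset.sum_comm
    _ = ∑ I : Fin p → κ, ∑ I' : Fin p → ι, ∑ J : Fin p → κ, ∑ J' : Fin p → ι, c I * conj (c J) *
        (S (ev G z) I' J' * (∏ l, jac G z (I' l) (I l)) * ∏ l, conj (jac G z (J' l) (J l))) :=
        Finset.sum_congr rfl fun I _ => Finset.sum_congr rfl fun I' _ => Finset.sum_comm
    _ = ∑ I : Fin p → κ, ∑ J : Fin p → κ, ∑ I' : Fin p → ι, ∑ J' : Fin p → ι, c I * conj (c J) *
        (S (ev G z) I' J' * (∏ l, jac G z (I' l) (I l)) * ∏ l, conj (jac G z (J' l) (J l))) :=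
        Finset.sum_congr rfl fun I _ => Finset.sum_comm

end Pool.Agent.H68.EQ
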