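import Pool.Agent.H92.EQ.TF2

set_option autoImplicit false

namespace Pool.Agent.H68.EQ

open Pool.Agent.H92.EQ
open scoped BigOperators ComplexConjugate ContDiff ComplexOrder
open MeasureTheory

/-- the polynomials `h` and `ε` times the monomials of degree `M` -/
noncomputable def gL {N : ℕ} (M : ℕ) (h : MvPolynomial (Fin N) ℂ) (ε : ℝ) :
    Option (Fin M → Fin N) → MvPolynomial (Fin N) ℂ
  | none => h
  | some i => MvPolynomial.C (ε : ℂ) * ∏ l, MvPolynomial.X (i l)

theorem gL_hom {N M : ℕ} {h : MvPolynomial (Fin N) ℂ} (hh : h.IsHomogeneous M) (ε : ℝ) :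
    ∀ i, (gL M h ε i).IsHomogeneous M := by
  intro i
  cases i with
  | none => exact hh
  | some i =>
    have h1 : (∏ l, (MvPolynomial.X (i l) : MvPolynomial (Fin N) ℂ)).IsHomogeneous
        (∑ _l : Fin M, 1) :=
      MvPolynomial.IsHomogeneous.prod _ _ _ fun l _ => MvPolynomial.isHomogeneous_X ℂ (i l)
    have h2 : ∑ _l : Fin M, 1 = M := by simp
    rw [h2] at h1
    exact h1.C_mul (ε : ℂ)

theorem gL_some {N M : ℕ} (h : MvPolynomial (Fin N) ℂ) (ε : ℝ) (z : Fin N → ℂ)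
    (i : Fin M → Fin N) : ev (gL M h ε) z (some i) = (ε : ℂ) * ∏ l, z (i l) := by
  change MvPolynomial.eval z (MvPolynomial.C (ε : ℂ) * ∏ l, MvPolynomial.X (i l)) = _
  rw [map_mul, MvPolynomial.eval_C, map_prod]
  simp only [MvPolynomial.eval_X]

theorem gL_nsq {N M : ℕ} (h : MvPolynomial (Fin N) ℂ) (ε : ℝ) (z : Fin N → ℂ) :
    nsq (ev (gL M h ε) z) = ‖MvPolynomial.eval z h‖ ^ 2 + ε ^ 2 * nsq z ^ M := by
  unfold nsq
  rw [Fintype.sum_option]
  congr 1
  rw [Fintype.sum_pow, Finset.mul_sum]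
  refine Finset.sum_congr rfl fun i _ => ?_
  rw [gL_some, norm_mul, mul_pow, Complex.norm_real, Real.norm_eq_abs, sq_abs, norm_prod,
    Finset.prod_pow]

theorem pf_L5 (h4 : T_L4) : T_L5 := by
  intro N M h ε hM hh hε
  have h1 := h4 N M (Option (Fin M → Fin N)) (gL M h ε) hM (gL_hom hh ε) (by
    intro z hz h0
    obtain ⟨j, hj⟩ := Function.ne_iff.1 hz
    have h2 := congrFun h0 (some fun _ => j)
    rw [gL_some, Finset.prod_const, Pi.zero_apply] at h2
    rcases mul_eq_zero.1 h2 with h3 | h3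
    · exact hε.ne' (by exact_mod_cast h3)
    · exact hj (pow_eq_zero_iff (by simp; omega) |>.1 h3))
  have h2 : (fun z => (1 / (M : ℝ)) * ell (ev (gL M h ε) z)) = fun z => (1 / (2 * M : ℝ)) *
      Real.log (‖MvPolynomial.eval z h‖ ^ 2 + ε ^ 2 * nsq z ^ M) := by
    funext z
    unfold ell
    rw [gL_nsq]
    ring
  rw [h2] at h1
  exact h1

end Pool.Agent.H68.EQ
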