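import Pool.Agent.H92.EQ.TF2

set_option autoImplicit false

namespace Pool.Agent.H68.EQ

open Pool.Agent.H92.EQ
open scoped BigOperators ComplexConjugate ContDiff ComplexOrder
open MeasureTheory

/-- the closed shell -/
def shl (N : ℕ) : Set (Fin N → ℂ) := {z | nsq z ∈ Set.Icc (1 : ℝ) (Real.exp 2)}

theorem nsq_cont (N : ℕ) : Continuous fun z : Fin N → ℂ => nsq z := by
  unfold nsq
  fun_prop

theorem shl_compact (N : ℕ) : IsCompact (shl N) := by
  refine Metric.isCompact_of_isClosed_isBounded ?_ ?_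
  · exact isClosed_Icc.preimage (nsq_cont N)
  · refine (Metric.isBounded_closedBall (x := (0 : Fin N → ℂ)) (r := Real.exp 2)).subset ?_
    intro z hz
    rw [mem_closedBall_zero_iff, pi_norm_le_iff_of_nonneg (Real.exp_pos 2).le]
    intro i
    have h1 : ‖z i‖ ^ 2 ≤ nsq z :=
      Finset.single_le_sum (f := fun i => ‖z i‖ ^ 2) (fun j _ => sq_nonneg _) (Finset.mem_univ i)
    have h2 : nsq z ≤ Real.exp 2 := hz.2
    have h3 : (1 : ℝ) ≤ Real.exp 2 := Real.one_le_exp (by norm_num)
    nlinarith [norm_nonneg (z i)]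

theorem shl_sub (N : ℕ) : shl N ⊆ ({0}ᶜ : Set (Fin N → ℂ)) := by
  intro z hz h0
  rw [Set.mem_singleton_iff] at h0
  have h1 : (1 : ℝ) ≤ nsq z := hz.1
  rw [h0] at h1
  have h2 : nsq (0 : Fin N → ℂ) = 0 := by simp [nsq]
  rw [h2] at h1
  linarith

theorem dom_sub (N : ℕ) : {z : Fin N → ℂ | 0 ≤ ell z ∧ ell z < 1} ⊆ {0} ∪ shl N := by
  intro z hz
  obtain ⟨h1, h2⟩ := hz
  by_cases h0 : z = 0
  · exact Or.inl h0
  · right
    have hpos : 0 < nsq z := by
      obtain ⟨i, hi⟩ := Function.ne_iff.1 h0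
      have h3 : ‖z i‖ ^ 2 ≤ nsq z :=
        Finset.single_le_sum (f := fun i => ‖z i‖ ^ 2) (fun j _ => sq_nonneg _)
          (Finset.mem_univ i)
      have h4 : 0 < ‖z i‖ := norm_pos_iff.2 hi
      have h5 : 0 < ‖z i‖ ^ 2 := by positivity
      linarith
    unfold ell at h1 h2
    have h3 : 0 ≤ Real.log (nsq z) := by linarith
    have h4 : Real.log (nsq z) < 2 := by linarith
    refine ⟨?_, ?_⟩
    · by_contra hlt
      push Not at hlt
      have := Real.log_neg hpos hlt
      linarith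
    · exact ((Real.log_lt_iff_lt_exp hpos).1 h4).le

theorem integrableOn_dom {N : ℕ} (hN : 0 < N) {f : (Fin N → ℂ) → ℝ}
    (h : IntegrableOn f (shl N)) : IntegrableOn f {z : Fin N → ℂ | 0 ≤ ell z ∧ ell z < 1} := by
  refine IntegrableOn.mono_set ?_ (dom_sub N)
  refine IntegrableOn.union ?_ h
  have : Nonempty (Fin N) := ⟨⟨0, hN⟩⟩
  refine IntegrableOn.of_measure_zero ?_
  exact measure_singleton 0

theorem pf_P1 (hS5 : T_S5) : T_P1 := by
  intro N p q S u c hN hS hu
  have hpos : 0 < N := by omega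
  obtain ⟨hc, -, -⟩ := hS5 N p q S u c hN hS hu
  have hcs : ContinuousOn (fun z => Q S u z) (shl N) := hc.mono (shl_sub N)
  have hm : MeasurableSet (shl N) := (shl_compact N).measurableSet
  refine ⟨?_, ?_⟩
  · intro φ B hφ hB
    refine integrableOn_dom hpos ?_
    have h1 : IntegrableOn (fun z => Q S u z) (shl N) := hcs.integrableOn_compact (shl_compact N)
    refine Integrable.bdd_mul (c := B) h1 hφ.aestronglyMeasurable ?_
    refine (ae_restrict_mem hm).mono fun z hz => ?_
    rw [Real.norm_eq_abs]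
    exact hB z (shl_sub N hz)
  · intro φ hφ
    refine integrableOn_dom hpos ?_
    exact ((hφ.mono (shl_sub N)).mul hcs).integrableOn_compact (shl_compact N)

end Pool.Agent.H68.EQ
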