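import Pool.Agent.H92.EQ.TP

/-!
Row PNM of the board `eqd_modules`: norms exist.
-/

namespace Pool.Agent.H68.EQ

open Pool.Agent.H92.EQ
open MvPolynomial

theorem opt_eval {N : ℕ} (Φ : Fin N → MvPolynomial (Fin N) ℂ) (h : MvPolynomial (Fin N) ℂ)
    (p : MvPolynomial (Option (Fin N)) ℂ) :
    aeval (fun o : Option (Fin N) => o.elim h Φ) p =
      Polynomial.eval₂ (bind₁ Φ : MvPolynomial (Fin N) ℂ →ₐ[ℂ] MvPolynomial (Fin N) ℂ).toRingHom h
        (optionEquivLeft ℂ (Fin N) p) := by
  induction p using MvPolynomial.induction_on with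
  | C a =>
    rw [optionEquivLeft_C, Polynomial.eval₂_C, aeval_C]
    change _ = bind₁ Φ (C a)
    rw [bind₁_C_right]
    rfl
  | add p q hp hq => rw [map_add, map_add, Polynomial.eval₂_add, hp, hq]
  | mul_X p o hp =>
    rw [map_mul, map_mul, Polynomial.eval₂_mul, hp, aeval_X]
    congr 1
    cases o with
    | none => rw [optionEquivLeft_X_none, Polynomial.eval₂_X]; rfl
    | some i =>
      rw [optionEquivLeft_X_some, Polynomial.eval₂_C]
      change Φ i = bind₁ Φ (X i)
      rw [bind₁_X_right]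

theorem exists_dvd_bind {N : ℕ} (Φ : Fin N → MvPolynomial (Fin N) ℂ)
    (h : MvPolynomial (Fin N) ℂ) (hh : h ≠ 0) :
    ∃ P : MvPolynomial (Fin N) ℂ, P ≠ 0 ∧ h ∣ bind₁ Φ P := by
  have hn : ¬ AlgebraicIndependent ℂ (fun o : Option (Fin N) => o.elim h Φ) := by
    intro hx
    have h1 := hx.lift_cardinalMk_le_trdeg
    rw [MvPolynomial.trdeg_of_isDomain] at h1
    simp only [Cardinal.mk_option, Cardinal.mk_fin, Cardinal.lift_natCast, Cardinal.lift_add,
      Cardinal.lift_one] at h1
    have h2 : (N : Cardinal) + 1 ≤ N := h1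
    have h3 : ((N + 1 : ℕ) : Cardinal) ≤ (N : ℕ) := by
      push_cast
      exact h2
    have h4 := Nat.cast_le.1 h3
    omega
  rw [algebraicIndependent_iff] at hn
  push Not at hn
  obtain ⟨p, hp0, hp⟩ := hn
  rw [opt_eval] at hp0
  set f := (bind₁ Φ : MvPolynomial (Fin N) ℂ →ₐ[ℂ] MvPolynomial (Fin N) ℂ).toRingHom with hf
  have hQ : optionEquivLeft ℂ (Fin N) p ≠ 0 := by
    intro h0
    exact hp ((optionEquivLeft ℂ (Fin N)).injective (h0.trans (map_zero _).symm))
  obtain ⟨q, hq, hq0⟩ := Polynomial.exists_eq_pow_rootMultiplicity_mul_and_not_dvd _ hQ 0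
  rw [Polynomial.C_0, sub_zero, Polynomial.X_dvd_iff] at hq0
  rw [Polynomial.C_0, sub_zero] at hq
  rw [hq, Polynomial.eval₂_mul, Polynomial.eval₂_pow, Polynomial.eval₂_X] at hp0
  have h5 : Polynomial.eval₂ f h q = 0 := by
    rcases mul_eq_zero.1 hp0 with h6 | h6
    · exact absurd h6 (pow_ne_zero _ hh)
    · exact h6
  refine ⟨q.coeff 0, hq0, ?_⟩
  have h7 := Polynomial.divX_mul_X_add q
  rw [← h7, Polynomial.eval₂_add, Polynomial.eval₂_mul, Polynomial.eval₂_X,
    Polynomial.eval₂_C] at h5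
  have h8 : bind₁ Φ (q.coeff 0) = -(Polynomial.eval₂ f h q.divX) * h := by
    rw [neg_mul]
    exact eq_neg_of_add_eq_zero_right h5
  rw [h8]
  exact dvd_mul_left _ _

theorem dvd_component {N m : ℕ} {h G : MvPolynomial (Fin N) ℂ} (hh : h.IsHomogeneous m)
    (hd : h ∣ G) (n : ℕ) : h ∣ homogeneousComponent n G := by
  obtain ⟨g, rfl⟩ := hd
  have h1 : h * g = ∑ b ∈ Finset.range (g.totalDegree + 1), h * homogeneousComponent b g := by
    rw [← Finset.mul_sum, sum_homogeneousComponent]
  rw [h1, map_sum]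
  refine Finset.dvd_sum fun b _ => ?_
  have h2 : h * homogeneousComponent b g ∈ homogeneousSubmodule (Fin N) ℂ (m + b) :=
    hh.mul (homogeneousComponent_isHomogeneous b g)
  rw [homogeneousComponent_of_mem h2]
  split_ifs
  · exact dvd_mul_right _ _
  · exact dvd_zero _

theorem pf_PNM : T_PNM := by
  intro N D m Φ h hN hD hΦ hh hh0
  obtain ⟨P, hP0, hP⟩ := exists_dvd_bind Φ h hh0
  have h1 : ∃ j, homogeneousComponent j P ≠ 0 := by
    by_contra hcon
    push Not at hcon
    apply hP0
    rw [← sum_homogeneousComponent P]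
    exact Finset.sum_eq_zero fun i _ => hcon i
  obtain ⟨j, hj⟩ := h1
  refine ⟨homogeneousComponent j P, j, hj, homogeneousComponent_isHomogeneous j P, ?_⟩
  have h2 : ∀ i, bind₁ Φ (homogeneousComponent i P) ∈ homogeneousSubmodule (Fin N) ℂ (D * i) :=
    fun i => (homogeneousComponent_isHomogeneous i P).aeval Φ hΦ.hom
  have h3 : homogeneousComponent (D * j) (bind₁ Φ P) = bind₁ Φ (homogeneousComponent j P) := by
    conv_lhs => rw [← sum_homogeneousComponent P]
    rw [map_sum, map_sum]
    have h4 : ∀ i ∈ Finset.range (P.totalDegree + 1),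
        homogeneousComponent (D * j) (bind₁ Φ (homogeneousComponent i P)) =
          if i = j then bind₁ Φ (homogeneousComponent j P) else 0 := by
      intro i _
      rw [homogeneousComponent_of_mem (h2 i)]
      by_cases hij : i = j
      · rw [if_pos hij, if_pos (by rw [hij]), hij]
      · rw [if_neg hij, if_neg]
        intro h5
        exact hij (Nat.eq_of_mul_eq_mul_left (by omega) h5).symm
    rw [Finset.sum_congr rfl h4, Finset.sum_ite_eq' (Finset.range (P.totalDegree + 1)) j,
      if_pos]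
    rw [Finset.mem_range]
    by_contra hcon
    exact hj (homogeneousComponent_eq_zero j P (by omega))
  rw [← h3]
  exact dvd_component hh hP _

end Pool.Agent.H68.EQ
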