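import Pool.Agent.H92.EQ.TF2

set_option autoImplicit false

namespace Pool.Agent.H68.EQ

open Pool.Agent.H92.EQ
open scoped BigOperators ComplexConjugate ContDiff ComplexOrder
open MeasureTheory

theorem nsq_pos' {N : ℕ} {z : Fin N → ℂ} (hz : z ≠ 0) : 0 < nsq z := by
  obtain ⟨i, hi⟩ := Function.ne_iff.1 hz
  have h3 : ‖z i‖ ^ 2 ≤ nsq z :=
    Finset.single_le_sum (f := fun i => ‖z i‖ ^ 2) (fun j _ => sq_nonneg _) (Finset.mem_univ i)
  have h4 : 0 < ‖z i‖ := norm_pos_iff.2 hi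
  have h5 : 0 < ‖z i‖ ^ 2 := by positivity
  linarith

theorem rad_cont (N : ℕ) (a b : Fin N) :
    ContinuousOn (fun z : Fin N → ℂ => Rad z a b) ({0}ᶜ : Set (Fin N → ℂ)) := by
  unfold Rad
  refine ContinuousOn.div ?_ ?_ ?_
  · exact ((Complex.continuous_conj.comp (continuous_apply a)).mul
      (continuous_apply b)).continuousOn
  · have h1 : Continuous fun z : Fin N → ℂ => nsq z := by
      unfold nsq
      fun_prop
    exact (continuous_const.mul ((Complex.continuous_ofReal.comp h1).pow 2)).continuousOn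
  · intro z hz
    have h1 := nsq_pos' (z := z) hz
    have h2 : ((nsq z : ℝ) : ℂ) ≠ 0 := by exact_mod_cast h1.ne'
    exact mul_ne_zero (by norm_num) (pow_ne_zero _ h2)

theorem hess_cont (hW6 : T_W6) {N : ℕ} {u : (Fin N → ℂ) → ℝ}
    (hu : ContDiffOn ℝ ∞ u ({0}ᶜ : Set (Fin N → ℂ))) (a b : Fin N) :
    ContinuousOn (fun z : Fin N → ℂ => hessR u z a b) ({0}ᶜ : Set (Fin N → ℂ)) := by
  have hopen : IsOpen ({0}ᶜ : Set (Fin N → ℂ)) := isOpen_compl_singleton
  have h1 : ContDiffOn ℝ ∞ (fun w => (u w : ℂ)) ({0}ᶜ : Set (Fin N → ℂ)) :=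
    Complex.ofRealCLM.contDiff.comp_contDiffOn hu
  have h2 := (hW6 (Fin N) b _ _ hopen h1).2
  have h3 := (hW6 (Fin N) a _ _ hopen h2).1
  exact h3.continuousOn

theorem mixD_scale {N p m : ℕ} (S : (Fin p → Fin N) → (Fin p → Fin N) → ℂ)
    (H H' : Fin m → Matrix (Fin N) (Fin N) ℂ) (s t : ℂ) (hH : ∀ j a b, H' j a b = t * H j a b) :
    mixD (fun I J => s * S I J) H' = s * t ^ m * mixD S H := by
  unfold mixD
  rw [Finset.mul_sum]
  refine Finset.sum_congr rfl fun e _ => ?_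
  rw [Finset.mul_sum]
  refine Finset.sum_congr rfl fun e' _ => ?_
  have h1 : ∏ j, H' j (e (Sum.inr j)) (e' (Sum.inr j)) =
      t ^ m * ∏ j, H j (e (Sum.inr j)) (e' (Sum.inr j)) := by
    rw [Finset.prod_congr rfl fun j _ => hH j _ _, Finset.prod_mul_distrib, Finset.prod_const,
      Finset.card_univ, Fintype.card_fin]
  rw [h1]
  ring

theorem nsq_smul {N : ℕ} (l : ℂ) (z : Fin N → ℂ) : nsq (l • z) = ‖l‖ ^ 2 * nsq z := by
  unfold nsq
  rw [Finset.mul_sum]
  refine Finset.sum_congr rfl fun i _ => ?_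
  rw [Pi.smul_apply, smul_eq_mul, norm_mul, mul_pow]

theorem rad_smul {N : ℕ} {l : ℂ} {z : Fin N → ℂ} (hl : l ≠ 0) (hz : z ≠ 0) (a b : Fin N) :
    Rad (l • z) a b = ((‖l‖ ^ 2 : ℝ) : ℂ)⁻¹ * Rad z a b := by
  unfold Rad
  rw [nsq_smul, Pi.smul_apply, Pi.smul_apply, smul_eq_mul, smul_eq_mul, map_mul]
  have h1 := nsq_pos' hz
  have h2 : ((nsq z : ℝ) : ℂ) ≠ 0 := by exact_mod_cast h1.ne'
  have h3 : ((‖l‖ : ℝ) : ℂ) ≠ 0 := by exact_mod_cast (norm_ne_zero_iff.2 hl)
  have h4 : conj l * l = ((‖l‖ : ℝ) : ℂ) ^ 2 := by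
    rw [mul_comm, Complex.mul_conj, Complex.normSq_eq_norm_sq]
    push_cast
    ring
  have h5 : conj l * conj (z a) * (l * z b) = ((‖l‖ : ℝ) : ℂ) ^ 2 * (conj (z a) * z b) := by
    rw [← h4]; ring
  rw [h5]
  push_cast
  field_simp

theorem rad_herm {N : ℕ} (z : Fin N → ℂ) : (Rad z).IsHermitian := by
  ext a b
  rw [Matrix.conjTranspose_apply]
  unfold Rad
  rw [RCLike.star_def, map_div₀, map_mul, Complex.conj_conj, map_mul, map_pow,
    Complex.conj_ofReal]
  have : conj (4 : ℂ) = 4 := by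
    rw [Complex.conj_eq_iff_real]
    exact ⟨4, by norm_num⟩
  rw [this]
  ring

theorem pf_S5 (h5 : T_A5) (hL2 : T_L2) (hW6 : T_W6) (hW8 : T_W8) : T_S5 := by
  intro N p q S u c hN hS hu
  refine ⟨?_, ?_, ?_⟩
  · unfold Q
    refine Complex.continuous_re.comp_continuousOn ?_
    unfold mixD
    refine continuousOn_finsetSum _ fun e _ => ?_
    refine continuousOn_finsetSum _ fun e' _ => ?_
    refine ContinuousOn.mul ?_ ?_
    · exact continuousOn_const.mul (hS.cp.smooth _ _).continuousOn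
    · refine continuousOn_finsetProd _ fun j _ => ?_
      refine Fin.lastCases ?_ (fun i => ?_) j
      · simp only [Fin.snoc_last]
        exact rad_cont N _ _
      · simp only [Fin.snoc_castSucc]
        exact hess_cont hW6 (hu i).smooth _ _
  · intro l z hl hz
    unfold Q
    have h1 : S (l • z) = fun I J => (((‖l‖ ^ (2 * p))⁻¹ : ℝ) : ℂ) * S z I J := by
      funext I J
      exact hS.homog l z hl hz I J
    have h2 := mixD_scale (S z)
      (Fin.snoc (α := fun _ => Matrix (Fin N) (Fin N) ℂ) (fun j => hessR (u j) z) (Rad z))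
      (Fin.snoc (α := fun _ => Matrix (Fin N) (Fin N) ℂ) (fun j => hessR (u j) (l • z))
        (Rad (l • z))) (((‖l‖ ^ (2 * p))⁻¹ : ℝ) : ℂ) (((‖l‖ ^ 2 : ℝ) : ℂ)⁻¹) (by
        intro j a b
        refine Fin.lastCases ?_ (fun i => ?_) j
        · simp only [Fin.snoc_last]
          exact rad_smul hl hz a b
        · simp only [Fin.snoc_castSucc]
          have h3 := ((hL2 N (c i) (u i) (hu i) z hz).2.2.2.2 l hl).2
          rw [h3]
          rfl)
    rw [h1, h2]
    have h3 : (((‖l‖ ^ (2 * p))⁻¹ : ℝ) : ℂ) * (((‖l‖ ^ 2 : ℝ) : ℂ)⁻¹) ^ (q + 1) =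
        (((‖l‖ ^ (2 * N))⁻¹ : ℝ) : ℂ) := by
      have h4 : 2 * N = 2 * p + 2 * (q + 1) := by omega
      have h6 : ‖l‖ ^ (2 * N) = ‖l‖ ^ (2 * p) * (‖l‖ ^ 2) ^ (q + 1) := by
        rw [h4, pow_add, pow_mul ‖l‖ 2 (q + 1)]
      rw [h6]
      push_cast
      rw [mul_inv, inv_pow]
    rw [h3, Complex.re_ofReal_mul]
  · intro z hz
    have hPsd : Psd (S z) := hS.cp.psd z hz
    have hopen : IsOpen ({0}ᶜ : Set (Fin N → ℂ)) := isOpen_compl_singleton
    have h1 := (h5 (Fin N) p (q + 1) (S z)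
      (Fin.snoc (α := fun _ => Matrix (Fin N) (Fin N) ℂ) (fun j => hessR (u j) z) (Rad z)) hPsd
      (by
        intro j
        refine Fin.lastCases ?_ (fun i => ?_) j
        · simp only [Fin.snoc_last]
          exact rad_herm z
        · simp only [Fin.snoc_castSucc]
          refine (hW8 (Fin N) (u i) z).2 ?_
          have h2 : ContDiffAt ℝ ∞ (u i) z := (hu i).smooth.contDiffAt (hopen.mem_nhds hz)
          exact h2.of_le (WithTop.coe_le_coe.2 le_top))).2
    unfold Q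
    exact Complex.ext (by simp) (by rw [h1]; simp)

end Pool.Agent.H68.EQ
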