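import Pool.Agent.H92.EQ.TF1

set_option autoImplicit false

namespace Pool.Agent.H68.EQ

open Pool.Agent.H92.EQ
open scoped BigOperators ComplexConjugate ContDiff ComplexOrder
open MeasureTheory

theorem single_split {ι : Type} [Fintype ι] [DecidableEq ι] (i : ι) (c : ℂ) :
    (Pi.single i c : ι → ℂ) = c.re • (Pi.single i 1 : ι → ℂ) +
      c.im • (Pi.single i Complex.I : ι → ℂ) := by
  rw [← Pi.single_smul, ← Pi.single_smul, ← Pi.single_add]
  congr 1
  rw [Complex.real_smul, Complex.real_smul, mul_one]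
  exact (Complex.re_add_im c).symm

theorem pf_W0 : T_W0 := by
  intro ι _ _ f z v
  have h1 : v = ∑ i, (Pi.single i (v i) : ι → ℂ) := (Finset.univ_sum_single v).symm
  conv_lhs => rw [h1]
  rw [map_sum]
  refine Finset.sum_congr rfl fun i _ => ?_
  rw [single_split, map_add, map_smul, map_smul]
  unfold wd wdb
  obtain ⟨a, ha⟩ : ∃ a, a = fderiv ℝ f z (Pi.single i 1) := ⟨_, rfl⟩
  obtain ⟨b, hb⟩ : ∃ b, b = fderiv ℝ f z (Pi.single i Complex.I) := ⟨_, rfl⟩
  rw [← ha, ← hb, Complex.real_smul, Complex.real_smul]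
  obtain ⟨x, y, hxy⟩ : ∃ x y : ℝ, v i = (x : ℂ) + (y : ℂ) * Complex.I :=
    ⟨_, _, (Complex.re_add_im (v i)).symm⟩
  have hre : (v i).re = x := by rw [hxy]; simp
  have him : (v i).im = y := by rw [hxy]; simp
  rw [hre, him, hxy, map_add, map_mul, Complex.conj_ofReal, Complex.conj_ofReal, Complex.conj_I]
  linear_combination ((y : ℂ) * b) * Complex.I_mul_I

end Pool.Agent.H68.EQ
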